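import Pool.Agent.Y164.NZ.StmT
import Pool.Agent.Y98.SZ.Adj

/-! NZT-RRT: the Kummer data over `F` of the class of a point of order `1 - s` (the descent version of
`Pool.Agent.Y98.SZ.Adj`, with an intermediate field `K ⊆ F ⊆ Ω`). -/

set_option autoImplicit false
set_option linter.all false

open Polynomial

namespace Pool.Agent.Y528.NZ.RRT

open Pool.Agent.Y713.SE Pool.Agent.Y713.SE.Dat
open Pool.Agent.Y164.SZ (Tm)
open Pool.Agent.Y164.NZ (S_RRT)
open Pool.Agent.Y98.SZ.Adj (lam_PT zprod)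

section
variable {ℓ n : ℕ} {K : Type} [Field K] (D : Dat ℓ n K) {F L : Type} [Field F] [Algebra K F] [Field L]
  [Algebra F L] [Algebra K L] [IsScalarTower K F L]

/-- the exact version of `locA` -/
theorem adjA [IsGalois F L] (hℓ : ℓ ≠ 2) {χ : (L ≃ₐ[F] L) → Fin n → ℕ} {R : ClassGroup (D.base L).A}
    (hR : ∀ τ, D.mC (rs K τ) R = R * cl ((D.base L).PT (χ τ)))
    {i j : Fin n} {θ : L} (hθ0 : θ ≠ 0)
    (hθ : ∀ τ : L ≃ₐ[F] L, (D.base L).ζ ^ χ τ j * τ θ = (D.base L).ζ ^ χ τ i * θ)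
    {B1 : Ideal (D.base L).A} (hB1 : B1 ≠ ⊥)
    (hi1 : ∀ τ : L ≃ₐ[F] L, D.mI (rs K τ) B1 = B1)
    (hcl : cl B1 * (D.base L).sC R = R) :
    ∃ x : F, x ≠ 0 ∧
      (algebraMap F L x) ^ ℓ * (D.base L).lam j ((D.base L).U B1) =
      θ ^ ℓ * (D.base L).lam i ((D.base L).U B1) := by
  obtain ⟨I, hI, rfl⟩ := exists_cl R
  rw [(D.base L).sC_cl hI, ← cl_mul hB1 ((D.base L).sI_ne hI)] at hcl
  obtain ⟨b, a, hb, ha, hab⟩ := (cl_eq_iff ((D.base L).mul_ne hB1 ((D.base L).sI_ne hI)) hI).1 hcl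
  -- the ratio of leading coefficients
  have key : ∀ τ : L ≃ₐ[F] L, ∃ κ : L, κ ≠ 0 ∧ ∀ k : Fin n,
      τ ((D.base L).lead k a) * (D.base L).lead k b * (κ * (D.base L).ζ ^ χ τ k) =
        τ ((D.base L).lead k b) * (D.base L).lead k a := by
    intro τ
    have h1 := hR τ
    rw [D.mC_cl _ hI, ← cl_mul hI ((D.base L).PT_ne _)] at h1
    obtain ⟨p, q, hp, hq, hpq⟩ := (cl_eq_iff (D.mI_ne _ hI)
      ((D.base L).mul_ne hI ((D.base L).PT_ne _))).1 h1
    have h2 := congrArg (D.mI (rs K τ)) hab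
    rw [mI_mul, mI_mul, mI_mul, mI_span, mI_span, hi1, mI_sI] at h2
    have h3 := congrArg ((D.base L).sI 1) hpq
    rw [sI_mul, sI_mul, sI_mul, sI_span, sI_span, sI_PT] at h3
    have hta := D.mp_ne (rs K τ) ha
    have htb := D.mp_ne (rs K τ) hb
    have hsp : (D.base L).s 1 p ≠ 0 := (map_ne_zero_iff _ ((D.base L).s 1).injective).2 hp
    have hsq : (D.base L).s 1 q ≠ 0 := (map_ne_zero_iff _ ((D.base L).s 1).injective).2 hq
    -- the key ideal identity
    have h4 : Ideal.span {D.mp (rs K τ) a * (D.base L).s 1 p * q * b} =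
        Ideal.span {D.mp (rs K τ) b * p * (D.base L).s 1 q * a} := by
      have hne : (B1 * (D.base L).sI 1 I) * (D.base L).PT (χ τ) ≠ ⊥ :=
        (D.base L).mul_ne ((D.base L).mul_ne hB1 ((D.base L).sI_ne hI)) ((D.base L).PT_ne _)
      apply mul_right_cancel₀ hne
      simp only [← Ideal.span_singleton_mul_span_singleton]
      generalize (D.base L).sI 1 I = sI at *
      generalize D.mI (rs K τ) I = tI at *
      generalize (D.base L).PT (χ τ) = T at *
      generalize (D.base L).sI 1 tI = stI at *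
      generalize Ideal.span {D.mp (rs K τ) a} = ta at *
      generalize Ideal.span {D.mp (rs K τ) b} = tb at *
      generalize Ideal.span {(D.base L).s 1 p} = sp at *
      generalize Ideal.span {(D.base L).s 1 q} = sq at *
      generalize Ideal.span {a} = a' at *
      generalize Ideal.span {b} = b' at *
      generalize Ideal.span {p} = p' at *
      generalize Ideal.span {q} = q' at *
      calc ta * sp * q' * b' * (B1 * sI * T) = ta * sp * q' * (b' * (B1 * sI)) * T := by ring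
        _ = ta * sp * q' * (a' * I) * T := by rw [hab]
        _ = ta * sp * a' * (q' * (I * T)) := by ring
        _ = ta * sp * a' * (p' * tI) := by rw [hpq]
        _ = sp * a' * p' * (ta * tI) := by ring
        _ = sp * a' * p' * (tb * (B1 * stI)) := by rw [h2]
        _ = a' * p' * tb * B1 * (sp * stI) := by ring
        _ = a' * p' * tb * B1 * (sq * (sI * T)) := by rw [h3]
        _ = _ := by ring
    rw [Ideal.span_singleton_eq_span_singleton] at h4
    obtain ⟨u, hu⟩ := h4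
    obtain ⟨κ, hκ, huκ⟩ := (D.base L).unit_const u.isUnit
    rw [huκ] at hu
    have hκA := (D.base L).alg_ne (C_ne_zero.2 hκ)
    refine ⟨κ, hκ, fun k => ?_⟩
    have h5 := congrArg ((D.base L).lead k) hu
    rw [(D.base L).lead_mul k (mul_ne_zero (mul_ne_zero (mul_ne_zero hta hsp) hq) hb) hκA,
      (D.base L).lead_mul k (mul_ne_zero (mul_ne_zero hta hsp) hq) hb,
      (D.base L).lead_mul k (mul_ne_zero hta hsp) hq, (D.base L).lead_mul k hta hsp,
      (D.base L).lead_mul k (mul_ne_zero (mul_ne_zero htb hp) hsq) ha,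
      (D.base L).lead_mul k (mul_ne_zero htb hp) hsq, (D.base L).lead_mul k htb hp,
      (D.base L).lead_C k hκ, (D.base L).lead_s k hp, (D.base L).lead_s k hq,
      D.lead_mp _ k ha, D.lead_mp _ k hb, one_mul, one_mul] at h5
    have e1 : ∀ x : L, (rs K τ) x = τ x := fun _ => rfl
    rw [e1, e1] at h5
    have h6 : (D.base L).ord k p = (D.base L).ord k q + χ τ k := by
      have h7 := congrArg ((D.base L).oI k) hpq
      rw [(D.base L).oI_mul k ((D.base L).span_ne hp) (D.mI_ne _ hI),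
        (D.base L).oI_mul k ((D.base L).span_ne hq) ((D.base L).mul_ne hI ((D.base L).PT_ne _)),
        (D.base L).oI_mul k hI ((D.base L).PT_ne _), (D.base L).oI_span k hp,
        (D.base L).oI_span k hq, D.oI_mI k _ hI, (D.base L).oI_PT] at h7
      omega
    have h8 : (D.base L).ζ ^ (D.base L).ord k q * (D.base L).lead k p * (D.base L).lead k q ≠ 0 :=
      mul_ne_zero (mul_ne_zero (pow_ne_zero _ (D.base L).ζ_ne) ((D.base L).lead_ne hp))
        ((D.base L).lead_ne hq)
    apply mul_left_cancel₀ h8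
    rw [h6, pow_add] at h5
    linear_combination h5
  -- the element
  set z : L := θ * ((D.base L).lead i a * (D.base L).lead j b) /
    ((D.base L).lead j a * (D.base L).lead i b) with hz
  have hai := (D.base L).lead_ne (i := i) ha
  have haj := (D.base L).lead_ne (i := j) ha
  have hbi := (D.base L).lead_ne (i := i) hb
  have hbj := (D.base L).lead_ne (i := j) hb
  have hz0 : z ≠ 0 := div_ne_zero (mul_ne_zero hθ0 (mul_ne_zero hai hbj)) (mul_ne_zero haj hbi)
  have hzfix : ∀ τ : L ≃ₐ[F] L, τ z = z := by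
    intro τ
    obtain ⟨κ, hκ, hk⟩ := key τ
    have hi := hk i
    have hj := hk j
    have hθ' := hθ τ
    have hζi : (D.base L).ζ ^ χ τ i ≠ 0 := pow_ne_zero _ (D.base L).ζ_ne
    have hζj : (D.base L).ζ ^ χ τ j ≠ 0 := pow_ne_zero _ (D.base L).ζ_ne
    have tai : τ ((D.base L).lead i a) ≠ 0 := (_root_.map_ne_zero _).2 hai
    have taj : τ ((D.base L).lead j a) ≠ 0 := (_root_.map_ne_zero _).2 haj
    have tbi : τ ((D.base L).lead i b) ≠ 0 := (_root_.map_ne_zero _).2 hbi
    have tbj : τ ((D.base L).lead j b) ≠ 0 := (_root_.map_ne_zero _).2 hbj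
    rw [hz, map_div₀, map_mul, map_mul, map_mul, div_eq_div_iff (mul_ne_zero taj tbi)
      (mul_ne_zero haj hbi)]
    generalize τ ((D.base L).lead i a) = Ai at *
    generalize τ ((D.base L).lead j a) = Aj at *
    generalize τ ((D.base L).lead i b) = Bi at *
    generalize τ ((D.base L).lead j b) = Bj at *
    generalize (D.base L).lead i a = ai at *
    generalize (D.base L).lead j a = aj at *
    generalize (D.base L).lead i b = bi at *
    generalize (D.base L).lead j b = bj at *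
    generalize (D.base L).ζ ^ χ τ i = zi at *
    generalize (D.base L).ζ ^ χ τ j = zj at *
    generalize τ θ = t at *
    have hne : κ * zi * zj ≠ 0 := mul_ne_zero (mul_ne_zero hκ hζi) hζj
    apply mul_left_cancel₀ hne
    calc κ * zi * zj * (t * (Ai * Bj) * (aj * bi)) =
        (Ai * bi * (κ * zi)) * (zj * t) * (Bj * aj) := by ring
      _ = (Bi * ai) * (zi * θ) * (Aj * bj * (κ * zj)) := by rw [hi, hθ', ← hj]
      _ = _ := by ring
  obtain ⟨x, hx⟩ := exists_F (F := F) hzfix
  have hx0 : x ≠ 0 := by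
    rintro rfl
    rw [map_zero] at hx
    exact hz0 hx.symm
  -- norms
  have hU : ∀ k : Fin n,
      (D.base L).lead k b ^ ℓ * ((D.base L).Nm b).leadingCoeff⁻¹ *
        (D.base L).lam k ((D.base L).U B1) =
      (D.base L).lead k a ^ ℓ * ((D.base L).Nm a).leadingCoeff⁻¹ := by
    intro k
    have h1 := congrArg (D.base L).U hab
    rw [(D.base L).U_mul ((D.base L).span_ne hb) ((D.base L).mul_ne hB1 ((D.base L).sI_ne hI)),
      (D.base L).U_mul hB1 ((D.base L).sI_ne hI), (D.base L).U_mul ((D.base L).span_ne ha) hI,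
      (D.base L).U_sI 1 hI, ← mul_assoc] at h1
    have h2 := mul_right_cancel₀ ((D.base L).U_ne I) h1
    rw [(D.base L).U_span hb, (D.base L).U_span ha] at h2
    have hNa := (D.base L).Nm_ne ha
    have hNb := (D.base L).Nm_ne hb
    have hca : ((D.base L).Nm a).leadingCoeff⁻¹ ≠ 0 := inv_ne_zero (leadingCoeff_ne_zero.2 hNa)
    have hcb : ((D.base L).Nm b).leadingCoeff⁻¹ ≠ 0 := inv_ne_zero (leadingCoeff_ne_zero.2 hNb)
    have h3 := congrArg ((D.base L).lam k) h2
    rw [(D.base L).lam_mul k (mul_ne_zero hNb (C_ne_zero.2 hcb)) ((D.base L).U_ne B1),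
      (D.base L).lam_mul k hNb (C_ne_zero.2 hcb), (D.base L).lam_mul k hNa (C_ne_zero.2 hca),
      (D.base L).lam_C k hca, (D.base L).lam_C k hcb, (D.base L).lead_Nm k ha,
      (D.base L).lead_Nm k hb, zprod D hℓ, zprod D hℓ, one_mul, one_mul] at h3
    exact h3
  have hri := hU i
  have hrj := hU j
  refine ⟨x, hx0, ?_⟩
  have hNa := (D.base L).Nm_ne ha
  have hNb := (D.base L).Nm_ne hb
  have hca : ((D.base L).Nm a).leadingCoeff⁻¹ ≠ 0 := inv_ne_zero (leadingCoeff_ne_zero.2 hNa)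
  have hcb : ((D.base L).Nm b).leadingCoeff⁻¹ ≠ 0 := inv_ne_zero (leadingCoeff_ne_zero.2 hNb)
  rw [hx, hz, div_pow, div_mul_eq_mul_div,
    div_eq_iff (pow_ne_zero _ (mul_ne_zero haj hbi)), mul_pow, mul_pow, mul_pow]
  generalize ((D.base L).Nm a).leadingCoeff⁻¹ = ca at *
  generalize ((D.base L).Nm b).leadingCoeff⁻¹ = cb at *
  generalize (D.base L).lam i ((D.base L).U B1) = Ti at *
  generalize (D.base L).lam j ((D.base L).U B1) = Tj at *
  generalize (D.base L).lead i a ^ ℓ = ai at *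
  generalize (D.base L).lead j a ^ ℓ = aj at *
  generalize (D.base L).lead i b ^ ℓ = bi at *
  generalize (D.base L).lead j b ^ ℓ = bj at *
  generalize θ ^ ℓ = t at *
  apply mul_left_cancel₀ (mul_ne_zero hca hcb)
  calc ca * cb * (t * (ai * bj) * Tj) = t * (ai * ca) * (bj * cb * Tj) := by ring
    _ = t * (bi * cb * Ti) * (aj * ca) := by rw [hri, hrj]
    _ = _ := by ring

end

/-- NZT-RRT -/
theorem t : S_RRT := by
  intro ℓ n K F Ω _ _ _ _ _ _ _ _ D hℓ χ kd m Q hQ hχ i j
  have hR : ∀ τ : Ω ≃ₐ[F] Ω, D.mC (rs K τ) Q = Q * cl ((D.base Ω).PT (χ τ)) := by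
    intro τ
    rw [hχ τ, mul_div_cancel]
  obtain ⟨x, hx0, hx⟩ := adjA D hℓ (χ := χ) hR (kd.h0 i j) (fun τ => kd.hθ τ i j)
    ((D.base Ω).PT_ne m) (fun τ => D.mI_PT (rs K τ) m) hQ
  rw [lam_PT, lam_PT, kd.hd, IsScalarTower.algebraMap_apply K F Ω,
    IsScalarTower.algebraMap_apply K F Ω] at hx
  refine ⟨x, hx0, ?_⟩
  apply (algebraMap F Ω).injective
  simp only [map_mul, map_pow]
  exact hx.symm

end Pool.Agent.Y528.NZ.RRT
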